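import Pool.Agent.Y25.NK.Spn1

/-!
Project NK: the unitary of the spectral theorem.
-/

set_option autoImplicit false
set_option linter.unusedSectionVars false

open MeasureTheory Filter Topology Set
open scoped InnerProductSpace ENNReal

noncomputable section

namespace Pool.Agent.Y25.NK

variable {X : Type} [MetricSpace X] [CompactSpace X] [MeasurableSpace X] [BorelSpace X]
variable {H : Type} [NormedAddCommGroup H] [InnerProductSpace ℂ H] [CompleteSpace H]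

/-- The sum of the measures. -/
def MU (m : ℕ → Measure X) : Measure (ℕ × X) := Measure.sum fun k => (m k).map (Prod.mk k)

lemma MU_slice (m : ℕ → Measure X) (k : ℕ) :
    MU m ({k} ×ˢ (univ : Set X)) = m k univ := by
  unfold MU
  have hm : MeasurableSet ({k} ×ˢ (univ : Set X)) := (measurableSet_singleton k).prod .univ
  rw [Measure.sum_apply _ hm, tsum_eq_single k]
  · rw [Measure.map_apply measurable_prodMk_left hm]
    congr 1
    ext x
    simp
  · intro j hj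
    rw [Measure.map_apply measurable_prodMk_left hm]
    have h1 : Prod.mk j ⁻¹' ({k} ×ˢ (univ : Set X)) = ∅ := by
      ext x
      simp [hj]
    rw [h1, measure_empty]

instance MU_lf (m : ℕ → Measure X) [∀ k, IsFiniteMeasure (m k)] :
    IsLocallyFiniteMeasure (MU m) := by
  refine ⟨fun s => ⟨{s.1} ×ˢ univ, ?_, ?_⟩⟩
  · exact prod_mem_nhds (by rw [nhds_discrete]; exact mem_pure.2 rfl) univ_mem
  · rw [MU_slice]
    exact measure_lt_top _ _

lemma integral_MU (m : ℕ → Measure X) [∀ k, IsFiniteMeasure (m k)] {f : ℕ × X → ℂ}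
    (hf : Continuous f) (hc : HasCompactSupport f) :
    ∫ s, f s ∂(MU m) = ∑' k, ∫ x, f (k, x) ∂(m k) := by
  have h1 : Integrable f (MU m) := hf.integrable_of_hasCompactSupport hc
  unfold MU at h1 ⊢
  rw [integral_sum_measure h1]
  refine tsum_congr fun k => ?_
  exact integral_map measurable_prodMk_left.aemeasurable hf.aestronglyMeasurable

/-- The function on the sum. -/
def fn (a : ℕ →₀ C(X, ℂ)) : ℕ × X → ℂ := fun s => a s.1 s.2

lemma fn_cont (a : ℕ →₀ C(X, ℂ)) : Continuous (fn a) :=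
  continuous_prod_of_discrete_left.2 fun k => (a k).continuous

lemma fn_comp (a : ℕ →₀ C(X, ℂ)) : HasCompactSupport (fn a) := by
  refine HasCompactSupport.intro (K := (a.support : Set ℕ) ×ˢ univ)
    (a.support.finite_toSet.isCompact.prod isCompact_univ) ?_
  intro s hs
  have h1 : s.1 ∉ a.support := fun h => hs ⟨h, mem_univ _⟩
  unfold fn
  rw [Finsupp.notMem_support_iff.1 h1]
  rfl

lemma fn_memLp (m : ℕ → Measure X) [∀ k, IsFiniteMeasure (m k)] (a : ℕ →₀ C(X, ℂ)) :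
    MemLp (fn a) 2 (MU m) := (fn_cont a).memLp_of_hasCompactSupport (fn_comp a)

/-- The map to `L²`. -/
def ee (m : ℕ → Measure X) [∀ k, IsFiniteMeasure (m k)] :
    (ℕ →₀ C(X, ℂ)) →ₗ[ℂ] Lp ℂ 2 (MU m) where
  toFun a := (fn_memLp m a).toLp _
  map_add' a b := by
    rw [← MemLp.toLp_add]
    rfl
  map_smul' c a := by
    rw [RingHom.id_apply, ← MemLp.toLp_const_smul]
    rfl

lemma ee_coe (m : ℕ → Measure X) [∀ k, IsFiniteMeasure (m k)] (a : ℕ →₀ C(X, ℂ)) :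
    ⇑(ee m a) =ᵐ[MU m] fn a := (fn_memLp m a).coeFn_toLp

/-- The map to `H`. -/
def ff (T : C(X, ℂ) →⋆ₐ[ℂ] (H →L[ℂ] H)) (v : ℕ → H) : (ℕ →₀ C(X, ℂ)) →ₗ[ℂ] H :=
  Finsupp.lsum ℂ fun k =>
    { toFun := fun f => T f (v k)
      map_add' := fun f g => by rw [map_add]; rfl
      map_smul' := fun c f => by rw [map_smul]; rfl }

lemma ff_apply (T : C(X, ℂ) →⋆ₐ[ℂ] (H →L[ℂ] H)) (v : ℕ → H) (a : ℕ →₀ C(X, ℂ)) :
    ff T v a = ∑ k ∈ a.support, T (a k) (v k) := rfl

lemma norm_eq (T : C(X, ℂ) →⋆ₐ[ℂ] (H →L[ℂ] H)) (v : ℕ → H) (m : ℕ → Measure X)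
    [∀ k, IsFiniteMeasure (m k)] (hm : ∀ k (f : C(X, ℂ)), ∫ z, f z ∂(m k) = ⟪v k, T f (v k)⟫_ℂ)
    (ho : ∀ j k, j ≠ k → ∀ f g, ⟪T f (v j), T g (v k)⟫_ℂ = 0) (a : ℕ →₀ C(X, ℂ)) :
    ‖ff T v a‖ = ‖ee m a‖ := by
  have h1 : ⟪ff T v a, ff T v a⟫_ℂ = ∑ k ∈ a.support, ⟪T (a k) (v k), T (a k) (v k)⟫_ℂ := by
    rw [ff_apply, sum_inner]
    refine Finset.sum_congr rfl fun k hk => ?_
    rw [inner_sum, Finset.sum_eq_single k]
    · intro j _ hj
      exact ho k j (Ne.symm hj) _ _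
    · intro h
      exact absurd hk h
  have h2 : ⟪ee m a, ee m a⟫_ℂ = ∑ k ∈ a.support, ⟪T (a k) (v k), T (a k) (v k)⟫_ℂ := by
    rw [L2.inner_def]
    have h3 : ∫ s, ⟪(ee m a) s, (ee m a) s⟫_ℂ ∂(MU m) = ∫ s, star (fn a s) * fn a s ∂(MU m) := by
      refine integral_congr_ae ?_
      filter_upwards [ee_coe m a] with s hs
      rw [hs, RCLike.inner_apply, mul_comm]
      rfl
    rw [h3, integral_MU m (f := fun s => star (fn a s) * fn a s)
      ((continuous_star.comp (fn_cont a)).mul (fn_cont a))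
      (HasCompactSupport.mul_left (fn_comp a))]
    have h4 : ∀ k, ∫ x, star (fn a (k, x)) * fn a (k, x) ∂(m k) =
        ⟪T (a k) (v k), T (a k) (v k)⟫_ℂ := by
      intro k
      rw [T_inner, ← hm]
      rfl
    simp_rw [h4]
    refine tsum_eq_sum fun k hk => ?_
    rw [Finsupp.notMem_support_iff.1 hk, map_zero, zero_apply, inner_zero_left]
  have h5 : ⟪ff T v a, ff T v a⟫_ℂ = ⟪ee m a, ee m a⟫_ℂ := h1.trans h2.symm
  rw [inner_self_eq_norm_sq_to_K, inner_self_eq_norm_sq_to_K] at h5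
  have h6 : ‖ff T v a‖ ^ 2 = ‖ee m a‖ ^ 2 := by exact_mod_cast h5
  exact (sq_eq_sq₀ (norm_nonneg _) (norm_nonneg _)).1 h6

lemma ee_dense (m : ℕ → Measure X) [∀ k, IsFiniteMeasure (m k)] : DenseRange (ee m) := by
  classical
  rw [Metric.denseRange_iff]
  intro F r hr
  obtain ⟨g, hg1, hg2, hg3, hg4⟩ := (Lp.memLp F).exists_hasCompactSupport_eLpNorm_sub_le
    (by simp) (ε := ENNReal.ofReal (r / 2)) (by simpa using hr)
  have hfin : {k : ℕ | (⟨fun x => g (k, x), hg3.comp (Continuous.prodMk_right k)⟩ : C(X, ℂ)) ≠ 0}.Finite := by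
    refine Set.Finite.subset (isCompact_iff_finite.1 (hg1.isCompact.image continuous_fst)) ?_
    intro k hk
    obtain ⟨x, hx⟩ : ∃ x, g (k, x) ≠ 0 := by
      by_contra hcon
      push Not at hcon
      exact hk (ContinuousMap.ext fun x => hcon x)
    exact ⟨(k, x), subset_tsupport g hx, rfl⟩
  let a : ℕ →₀ C(X, ℂ) := Finsupp.ofSupportFinite
    (fun k => ⟨fun x => g (k, x), hg3.comp (Continuous.prodMk_right k)⟩) hfin
  have ha : fn a = g := rfl
  refine ⟨a, ?_⟩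
  rw [Lp.dist_def]
  have h1 : eLpNorm (⇑F - ⇑(ee m a)) 2 (MU m) = eLpNorm (⇑F - g) 2 (MU m) := by
    refine eLpNorm_congr_ae ?_
    filter_upwards [ee_coe m a] with s hs
    rw [Pi.sub_apply, Pi.sub_apply, hs, ha]
  rw [h1]
  have h2 := ENNReal.toReal_mono (by simp) hg2
  rw [ENNReal.toReal_ofReal (by positivity)] at h2
  linarith

lemma ff_dense (T : C(X, ℂ) →⋆ₐ[ℂ] (H →L[ℂ] H)) (v : ℕ → H)
    (hd : (Submodule.span ℂ {w | ∃ k f, w = T f (v k)}).topologicalClosure = ⊤) :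
    DenseRange (ff T v) := by
  have h1 : Submodule.span ℂ {w | ∃ k f, w = T f (v k)} ≤ LinearMap.range (ff T v) := by
    rw [Submodule.span_le]
    rintro _ ⟨k, f, rfl⟩
    refine ⟨Finsupp.single k f, ?_⟩
    unfold ff
    rw [Finsupp.lsum_single]
    rfl
  have h2 : Dense ((Submodule.span ℂ {w | ∃ k f, w = T f (v k)} : Submodule ℂ H) : Set H) := by
    rw [dense_iff_closure_eq, ← Submodule.topologicalClosure_coe, hd]
    rfl
  have h3 := h2.mono (show ((Submodule.span ℂ {w | ∃ k f, w = T f (v k)} : Submodule ℂ H) : Set H) ⊆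
    range (ff T v) from fun x hx => h1 hx)
  exact h3

/-- multiplication of the components -/
def mulc (h : C(X, ℂ)) (a : ℕ →₀ C(X, ℂ)) : ℕ →₀ C(X, ℂ) :=
  a.mapRange (fun f => h * f) (mul_zero h)

lemma ff_mulc (T : C(X, ℂ) →⋆ₐ[ℂ] (H →L[ℂ] H)) (v : ℕ → H) (h : C(X, ℂ)) (a : ℕ →₀ C(X, ℂ)) :
    ff T v (mulc h a) = T h (ff T v a) := by
  have h1 : ff T v (mulc h a) = ∑ k ∈ a.support, T (h * a k) (v k) := by
    rw [ff_apply]
    refine Finset.sum_subset (Finsupp.support_mapRange) ?_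
    intro k _ hk
    have h2 : h * a k = 0 := Finsupp.notMem_support_iff.1 hk
    have h3 : mulc h a k = 0 := h2
    rw [h3, map_zero]
    rfl
  rw [h1, ff_apply, map_sum]
  refine Finset.sum_congr rfl fun k _ => ?_
  rw [map_mul]
  rfl

/-- **The spectral theorem for a representation of `C(X)`.** -/
theorem exists_unitary [TopologicalSpace.SeparableSpace H] (T : C(X, ℂ) →⋆ₐ[ℂ] (H →L[ℂ] H)) :
    ∃ (μ : Measure (ℕ × X)) (_ : SigmaFinite μ) (W : Lp ℂ 2 μ ≃ₗᵢ[ℂ] H),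
      ∀ (h : C(X, ℂ)) (F G : Lp ℂ 2 μ), (⇑G =ᵐ[μ] fun s => h s.2 * F s) → T h (W F) = W G := by
  obtain ⟨v, ho, hd⟩ := exists_vec T
  choose m hfin hm using fun k => exists_meas T (v k)
  have hdE := ee_dense m
  have hdF := ff_dense T v hd
  let W : Lp ℂ 2 (MU m) ≃ₗᵢ[ℂ] H := (LinearEquiv.refl ℂ (ℕ →₀ C(X, ℂ))).extendOfIsometry
    (ee m) (ff T v) hdE hdF (norm_eq T v m hm ho)
  have hW : ∀ a, W (ee m a) = ff T v a := fun a =>
    LinearEquiv.extendOfIsometry_eq (LinearEquiv.refl ℂ (ℕ →₀ C(X, ℂ))) (ee m) (ff T v) hdE hdF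
      (norm_eq T v m hm ho) a
  refine ⟨MU m, inferInstance, W, ?_⟩
  intro h F G hG
  by_contra hne
  have hpos : 0 < ‖T h (W F) - W G‖ := norm_pos_iff.2 (sub_ne_zero.2 hne)
  set r := ‖T h (W F) - W G‖ / (2 * (‖T h‖ + ‖h‖ + 1)) with hr
  have hden : 0 < 2 * (‖T h‖ + ‖h‖ + 1) := by positivity
  have hr0 : 0 < r := div_pos hpos hden
  obtain ⟨a, ha⟩ := (Metric.denseRange_iff.1 hdE) F r hr0
  rw [dist_eq_norm] at ha
  have h1 : ‖ee m (mulc h a) - G‖ ≤ ‖h‖ * ‖ee m a - F‖ := by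
    refine Lp.norm_le_mul_norm_of_ae_le_mul ?_
    filter_upwards [Lp.coeFn_sub (ee m (mulc h a)) G, Lp.coeFn_sub (ee m a) F, hG,
      ee_coe m a, ee_coe m (mulc h a)] with s h1 h2 h3 h4 h5
    rw [h1, h2, Pi.sub_apply, Pi.sub_apply, h3, h4, h5]
    have h6 : fn (mulc h a) s = h s.2 * fn a s := rfl
    rw [h6, ← mul_sub, norm_mul]
    exact mul_le_mul_of_nonneg_right (h.norm_coe_le_norm _) (norm_nonneg _)
  have h2 : T h (W F) - W G = T h (W (F - ee m a)) + W (ee m (mulc h a) - G) := by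
    rw [map_sub W, map_sub W, hW, hW, ff_mulc, map_sub]
    abel
  have h3 : ‖T h (W F) - W G‖ ≤ ‖T h‖ * r + ‖h‖ * r := by
    conv_lhs => rw [h2]
    refine (norm_add_le _ _).trans (add_le_add ?_ ?_)
    · refine ((T h).le_opNorm _).trans ?_
      rw [LinearIsometryEquiv.norm_map]
      exact mul_le_mul_of_nonneg_left ha.le (norm_nonneg _)
    · rw [LinearIsometryEquiv.norm_map]
      refine h1.trans (mul_le_mul_of_nonneg_left ?_ (norm_nonneg _))
      rw [norm_sub_rev]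
      exact ha.le
  have h4 : r * (2 * (‖T h‖ + ‖h‖ + 1)) = ‖T h (W F) - W G‖ := div_mul_cancel₀ _ hden.ne'
  nlinarith [norm_nonneg (T h), norm_nonneg h]

end Pool.Agent.Y25.NK
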