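import Pool.Agent.Y283.NK.Stm
import Pool.Agent.Y25.NK.Spn2

/-!
Project NK: the spectral theorem for normal operators.
-/

set_option autoImplicit false

open MeasureTheory Filter Topology Set
open scoped InnerProductSpace ENNReal

noncomputable section

namespace Pool.Agent.Y25.NK.SPN

/-- **Normal operators are multiplication operators.** -/
theorem main : Pool.Agent.Y283.NK.S_SPN := by
  intro H _ _ _ _ N hN
  have hcpt : CompactSpace (spectrum ℂ N) := isCompact_iff_compactSpace.1 (spectrum.isCompact N)
  obtain ⟨μ, hμ, W, hW⟩ := exists_unitary (X := spectrum ℂ N) (cfcHom (R := ℂ) (a := N) hN)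
  refine ⟨ℕ × spectrum ℂ N, inferInstance, μ, hμ, fun s => (s.2 : ℂ), W,
    measurable_subtype_coe.comp measurable_snd, ?_, ?_⟩
  · intro s
    have h1 := spectrum.norm_le_norm_mul_of_mem s.2.2
    have h2 : ‖(1 : H →L[ℂ] H)‖ ≤ 1 := ContinuousLinearMap.norm_id_le
    exact h1.trans (mul_le_of_le_one_right (norm_nonneg _) h2)
  · intro f g hg
    have h1 := hW ((ContinuousMap.id ℂ).restrict (spectrum ℂ N)) f g hg
    rwa [cfcHom_id] at h1

end Pool.Agent.Y25.NK.SPN
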