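import Mathlib

/-!
Project NK: spectral measures of a representation of `C(X)`.
-/

set_option autoImplicit false

open MeasureTheory Filter Topology
open scoped InnerProductSpace CompactlySupported ENNReal

noncomputable section

namespace Pool.Agent.Y25.NK

variable {X : Type} [MetricSpace X] [CompactSpace X] [MeasurableSpace X] [BorelSpace X]
variable {H : Type} [NormedAddCommGroup H] [InnerProductSpace ℂ H] [CompleteSpace H]

/-- auxiliary: cast a real continuous function to a complex one -/
def toC (f : X → ℝ) (hf : Continuous f) : C(X, ℂ) :=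
  ⟨fun x => (f x : ℂ), Complex.continuous_ofReal.comp hf⟩

theorem exists_meas (T : C(X, ℂ) →⋆ₐ[ℂ] (H →L[ℂ] H)) (v : H) :
    ∃ σ : Measure X, IsFiniteMeasure σ ∧ ∀ f : C(X, ℂ), ∫ z, f z ∂σ = ⟪v, T f v⟫_ℂ := by
  let L : C_c(X, ℝ) →ₗ[ℝ] ℝ :=
    { toFun := fun f => (⟪v, T (toC f f.continuous) v⟫_ℂ).re
      map_add' := by
        intro f g
        have : toC (⇑(f + g)) (f + g).continuous = toC f f.continuous + toC g g.continuous := by
          ext x; simp [toC]
        rw [this, map_add, ContinuousLinearMap.add_apply, inner_add_right, Complex.add_re]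
      map_smul' := by
        intro c f
        have : toC (⇑(c • f)) (c • f).continuous = (c : ℂ) • toC f f.continuous := by
          ext x; simp [toC]
        rw [this, map_smul, ContinuousLinearMap.smul_apply, inner_smul_right, Complex.re_ofReal_mul]
        simp }
  have hpos : ∀ f : C_c(X, ℝ), 0 ≤ f → 0 ≤ L f := by
    intro f hf
    have hf' : ∀ x, 0 ≤ f x := fun x => hf x
    let g : C(X, ℂ) := toC (fun x => Real.sqrt (f x)) (Real.continuous_sqrt.comp f.continuous)
    have hg : toC f f.continuous = star g * g := by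
      ext x
      simp only [toC, ContinuousMap.coe_mk, ContinuousMap.mul_apply, ContinuousMap.star_apply, g]
      rw [RCLike.star_def, Complex.conj_ofReal, ← Complex.ofReal_mul, Real.mul_self_sqrt (hf' x)]
    change 0 ≤ (⟪v, T (toC f f.continuous) v⟫_ℂ).re
    rw [hg, map_mul, map_star, ContinuousLinearMap.mul_apply, ContinuousLinearMap.star_eq_adjoint,
      ContinuousLinearMap.adjoint_inner_right]
    exact inner_self_nonneg (𝕜 := ℂ)
  let Λ : C_c(X, ℝ) →ₚ[ℝ] ℝ := PositiveLinearMap.mk₀ L hpos
  refine ⟨RealRMK.rieszMeasure Λ, inferInstance, ?_⟩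
  have hre : ∀ f : C(X, ℝ), ∫ z, f z ∂(RealRMK.rieszMeasure Λ) =
      (⟪v, T (toC f f.continuous) v⟫_ℂ).re := by
    intro f
    have := RealRMK.integral_rieszMeasure Λ (CompactlySupportedContinuousMap.continuousMapEquiv f)
    exact this
  have him : ∀ f : C(X, ℝ), (⟪v, T (toC f f.continuous) v⟫_ℂ).im = 0 := by
    intro f
    have h1 : star (toC f f.continuous) = toC f f.continuous := by
      ext x; simp [toC]
    have h2 : ContinuousLinearMap.adjoint (T (toC f f.continuous)) = T (toC f f.continuous) := by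
      rw [← ContinuousLinearMap.star_eq_adjoint, ← map_star, h1]
    have h3 : (starRingEnd ℂ) ⟪v, T (toC f f.continuous) v⟫_ℂ = ⟪v, T (toC f f.continuous) v⟫_ℂ := by
      rw [inner_conj_symm, ← ContinuousLinearMap.adjoint_inner_right, h2]
    exact Complex.conj_eq_iff_im.mp h3
  intro f
  let fr : C(X, ℝ) := ⟨fun x => (f x).re, Complex.continuous_re.comp f.continuous⟩
  let fi : C(X, ℝ) := ⟨fun x => (f x).im, Complex.continuous_im.comp f.continuous⟩
  have hf : f = toC fr fr.continuous + Complex.I • toC fi fi.continuous := by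
    ext x
    simp only [toC, ContinuousMap.add_apply, ContinuousMap.coe_mk, ContinuousMap.smul_apply, fr, fi,
      smul_eq_mul]
    rw [mul_comm]; exact (Complex.re_add_im (f x)).symm
  have hint : Integrable (fun z => f z) (RealRMK.rieszMeasure Λ) :=
    f.continuous.integrable_of_hasCompactSupport (HasCompactSupport.of_compactSpace _)
  have h1 : (∫ z, f z ∂(RealRMK.rieszMeasure Λ)).re = ∫ z, fr z ∂(RealRMK.rieszMeasure Λ) :=
    (integral_re hint).symm
  have h2 : (∫ z, f z ∂(RealRMK.rieszMeasure Λ)).im = ∫ z, fi z ∂(RealRMK.rieszMeasure Λ) :=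
    (integral_im hint).symm
  have h3 : ⟪v, T f v⟫_ℂ = ⟪v, T (toC fr fr.continuous) v⟫_ℂ +
      Complex.I * ⟪v, T (toC fi fi.continuous) v⟫_ℂ := by
    conv_lhs => rw [hf]
    rw [map_add, map_smul, ContinuousLinearMap.add_apply, ContinuousLinearMap.smul_apply,
      inner_add_right, inner_smul_right]
  apply Complex.ext
  · rw [h1, hre, h3]
    simp [him]
  · rw [h2, hre, h3]
    simp [him]

/-! ### Decomposition into cyclic subspaces -/

/-- moving an operator to the other side -/
lemma T_inner (T : C(X, ℂ) →⋆ₐ[ℂ] (H →L[ℂ] H)) (f g : C(X, ℂ)) (v w : H) :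
    ⟪T f v, T g w⟫_ℂ = ⟪v, T (star f * g) w⟫_ℂ := by
  rw [map_mul, map_star, ContinuousLinearMap.mul_apply, ContinuousLinearMap.star_eq_adjoint,
    ContinuousLinearMap.adjoint_inner_right]

/-- Closed invariant subspaces. -/
structure Inv (T : C(X, ℂ) →⋆ₐ[ℂ] (H →L[ℂ] H)) (K : Submodule ℂ H) : Prop where
  cl : IsClosed (K : Set H)
  inv : ∀ f, ∀ v ∈ K, T f v ∈ K

lemma exists_step (T : C(X, ℂ) →⋆ₐ[ℂ] (H →L[ℂ] H)) (K : Submodule ℂ H) (hK : Inv T K) (d : H) :
    ∃ (v : H) (K' : Submodule ℂ H), Inv T K' ∧ K ≤ K' ∧ (∀ f, T f v ∈ K') ∧ d ∈ K' ∧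
      (∀ f, ∀ w ∈ K, ⟪w, T f v⟫_ℂ = 0) ∧
      K' = (K ⊔ Submodule.span ℂ (Set.range fun f => T f v)).topologicalClosure := by
  haveI : CompleteSpace K := hK.cl.completeSpace_coe
  set v : H := d - K.starProjection d with hv
  have hvK : v ∈ Kᗮ := K.sub_starProjection_mem_orthogonal d
  set S : Submodule ℂ H := K ⊔ Submodule.span ℂ (Set.range fun f => T f v) with hS
  have hle : S ≤ S.topologicalClosure := S.le_topologicalClosure
  have hTv : ∀ f, T f v ∈ S := fun f =>
    (le_sup_right : _ ≤ S) (Submodule.subset_span ⟨f, rfl⟩)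
  have hSinv : ∀ f, ∀ w ∈ S, T f w ∈ S := by
    intro f
    have h1 : S ≤ S.comap (T f : H →ₗ[ℂ] H) := by
      refine sup_le ?_ ?_
      · intro w hw
        exact (le_sup_left : K ≤ S) (hK.inv f w hw)
      · rw [Submodule.span_le]
        rintro _ ⟨g, rfl⟩
        change T f (T g v) ∈ S
        rw [← ContinuousLinearMap.mul_apply, ← map_mul]
        exact hTv _
    exact fun w hw => h1 hw
  refine ⟨v, S.topologicalClosure, ⟨S.isClosed_topologicalClosure, ?_⟩,
    le_trans le_sup_left hle, fun f => hle (hTv f), ?_, ?_, rfl⟩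
  · intro f w hw
    have hw' : w ∈ closure (S : Set H) := hw
    exact map_mem_closure (T f).continuous hw' fun w hw => hSinv f w hw
  · apply hle
    have h1 : d = K.starProjection d + T 1 v := by
      rw [map_one, ContinuousLinearMap.one_apply, hv]
      abel
    rw [h1]
    exact S.add_mem ((le_sup_left : K ≤ S) (K.starProjection_apply_mem d)) (hTv 1)
  · intro f w hw
    have h1 : ⟪T (star f) w, v⟫_ℂ = 0 := hvK _ (hK.inv _ w hw)
    rw [map_star, ContinuousLinearMap.star_eq_adjoint,
      ContinuousLinearMap.adjoint_inner_left] at h1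
    exact h1

/-- **Decomposition into cyclic subspaces.** -/
theorem exists_vec [TopologicalSpace.SeparableSpace H] (T : C(X, ℂ) →⋆ₐ[ℂ] (H →L[ℂ] H)) :
    ∃ v : ℕ → H, (∀ j k, j ≠ k → ∀ f g, ⟪T f (v j), T g (v k)⟫_ℂ = 0) ∧
      (Submodule.span ℂ {w | ∃ k f, w = T f (v k)}).topologicalClosure = ⊤ := by
  have hbot : Inv T (⊥ : Submodule ℂ H) := by
    refine ⟨?_, ?_⟩
    · rw [Submodule.bot_coe]
      exact isClosed_singleton
    · intro f v hv
      rw [Submodule.mem_bot] at hv ⊢
      rw [hv, map_zero]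
  choose! vv KK h1 h2 h3 h4 h5 h6 using exists_step T
  let d : ℕ → H := TopologicalSpace.denseSeq H
  let K : ℕ → Submodule ℂ H := fun n => Nat.rec ⊥ (fun n K => KK K (d n)) n
  have hK0 : K 0 = ⊥ := rfl
  have hKs : ∀ n, K (n + 1) = KK (K n) (d n) := fun n => rfl
  have hK : ∀ n, Inv T (K n) := by
    intro n
    induction n with
    | zero => exact hbot
    | succ n ih =>
      rw [hKs]
      exact h1 _ ih _
  have hmono : Monotone K := monotone_nat_of_le_succ fun n => by
    rw [hKs]
    exact h2 _ (hK n) _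
  have hvK : ∀ n f, T f (vv (K n) (d n)) ∈ K (n + 1) := fun n f => by
    rw [hKs]
    exact h3 _ (hK n) _ f
  have hlt : ∀ j k, j < k → ∀ f g, ⟪T f (vv (K j) (d j)), T g (vv (K k) (d k))⟫_ℂ = 0 := by
    intro j k hjk f g
    exact h5 _ (hK k) _ g _ (hmono (Nat.succ_le_of_lt hjk) (hvK j f))
  refine ⟨fun n => vv (K n) (d n), ?_, ?_⟩
  · intro j k hjk f g
    rcases lt_or_gt_of_ne hjk with h | h
    · exact hlt j k h f g
    · rw [← inner_conj_symm, hlt k j h g f, map_zero]
  · set S : Submodule ℂ H := Submodule.span ℂ {w | ∃ k f, w = T f (vv (K k) (d k))} with hS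
    have hKS : ∀ n, K n ≤ S.topologicalClosure := by
      intro n
      induction n with
      | zero => rw [hK0]; exact bot_le
      | succ n ih =>
        rw [hKs, h6 _ (hK n)]
        refine Submodule.topologicalClosure_minimal _ (sup_le ih ?_)
          S.isClosed_topologicalClosure
        refine le_trans ?_ S.le_topologicalClosure
        apply Submodule.span_mono
        rintro _ ⟨f, rfl⟩
        exact ⟨n, f, rfl⟩
    have hd : ∀ n, d n ∈ S.topologicalClosure := fun n => by
      apply hKS (n + 1)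
      rw [hKs]
      exact h4 _ (hK n) _
    rw [← Submodule.coe_eq_univ]
    have h7 : Dense (S.topologicalClosure : Set H) :=
      (TopologicalSpace.denseRange_denseSeq H).mono (by rintro _ ⟨n, rfl⟩; exact hd n)
    rw [← S.isClosed_topologicalClosure.closure_eq]
    exact h7.closure_eq

end Pool.Agent.Y25.NK
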